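import Mathlib

namespace Pool.Agent.H.MP_54e6ab_lc

open FreeMonoid

/-- the Knuth relations -/
def K (A : Type) [LinearOrder A] (u v : FreeMonoid A) : Prop :=
  ∃ x y z : A, (x ≤ y ∧ y < z ∧ u = of x * of z * of y ∧ v = of z * of x * of y) ∨
    (x < y ∧ y ≤ z ∧ u = of y * of x * of z ∧ v = of y * of z * of x)

/-- the plactic monoid -/
abbrev Pl (A : Type) [LinearOrder A] := PresentedMonoid (K A)

variable {A : Type} [LinearOrder A]

abbrev g (x : A) : Pl A := PresentedMonoid.of (K A) x
abbrev mk (u : FreeMonoid A) : Pl A := PresentedMonoid.mk (K A) u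

theorem mk_eq {u v : FreeMonoid A} : mk u = mk v ↔ ConGen.Rel (K A) u v := Con.eq (conGen (K A))

theorem k1 {x y z : A} (h : x ≤ y) (k : y < z) : g x * g z * g y = g z * g x * g y :=
  (mk_eq (u := of x * of z * of y) (v := of z * of x * of y)).2 (.of _ _ ⟨x, y, z, .inl ⟨h, k, rfl, rfl⟩⟩)

theorem k2 {x y z : A} (h : x < y) (k : y ≤ z) : g y * g x * g z = g y * g z * g x :=
  (mk_eq (u := of y * of x * of z) (v := of y * of z * of x)).2 (.of _ _ ⟨x, y, z, .inr ⟨h, k, rfl, rfl⟩⟩)

def act (a : A) (u : FreeMonoid A) (n : ℕ) : ℕ := u.toList.foldl (fun n x => if x = a then n - 1 else n + 1) n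

theorem inv {a b : A} (ab : a < b) {u v : FreeMonoid A} (h : mk u = mk v) :
    u.toList.Perm v.toList ∧ ((∀ x ∈ u.toList, x = a ∨ x = b) → act a u = act a v) := by
  replace h := mk_eq.1 h
  induction h with
  | of u v h =>
    obtain ⟨x, y, z, ⟨h1, h2, rfl, rfl⟩ | ⟨h1, h2, rfl, rfl⟩⟩ := h
    · refine ⟨List.Perm.swap _ _ _, fun h => funext fun n => ?_⟩
      simp [act] at h ⊢
      grind
    · refine ⟨(List.Perm.swap _ _ _).cons _, fun h => funext fun n => ?_⟩
      simp [act] at h ⊢
      grind
  | refl => exact ⟨.refl _, fun _ => rfl⟩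
  | symm r this =>
    exact ⟨this.1.symm, fun h => (this.2 fun x hx => h x (this.1.subset hx)).symm⟩
  | trans r s i j =>
    exact ⟨i.1.trans j.1, fun h => (i.2 h).trans (j.2 fun x hx => h x (i.1.symm.subset hx))⟩
  | mul r s i j =>
    refine ⟨i.1.append j.1, fun h => funext fun n => ?_⟩
    simp only [toList_mul, List.mem_append] at h
    have a := congrFun (i.2 fun x hx => h x (.inl hx)) n
    have b := j.2 fun x hx => h x (.inr hx)
    simp only [act, toList_mul, List.foldl_append] at a ⊢
    rw [a]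
    exact congrFun b _

def con : Pl A →* Multiplicative (Multiset A) :=
  PresentedMonoid.lift (fun x => Multiplicative.ofAdd {x}) fun u v ⟨x, y, z, h⟩ => by
    rcases h with ⟨-, -, rfl, rfl⟩ | ⟨-, -, rfl, rfl⟩ <;> simp only [map_mul] <;> ac_rfl

theorem con_mk (u : FreeMonoid A) : (con (mk u)).toAdd = u.toList := by
  induction u using FreeMonoid.inductionOn' with
  | one => simp
  | of_mul x u ih =>
    rw [mk, map_mul, map_mul, toAdd_mul, ih]
    rfl

def cnt (w : Pl A) (x : A) : ℕ := (con w).toAdd.count x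

@[simp] theorem cnt_mul (u v : Pl A) (x) : cnt (u * v) x = cnt u x + cnt v x := by simp [cnt]
@[simp] theorem cnt_one (x : A) : cnt 1 x = 0 := by simp [cnt]
@[simp] theorem cnt_g (x y : A) : cnt (g y) x = if x = y then 1 else 0 := Multiset.count_singleton x y
@[simp] theorem cnt_pow (u : Pl A) (k x) : cnt (u ^ k) x = k * cnt u x := by simp [cnt]

theorem g_inj {x y : A} (h : g x = g y) : x = y := by simpa using congrArg (cnt · x) h

def Dv (a w : Pl A) : Prop := ∃ s t, w = s * a * t
def At (b : Pl A) : Prop := ¬ b = 1 ∧ ∀ s t, b = s * t → s = 1 ∨ t = 1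
def Lt (a b : Pl A) : Prop := ¬ a = b ∧ b * a * a = a * b * a
def Cnt (w a p : Pl A) : Prop := (∀ b, At b → Dv b p → b = a) ∧ ∃ u v, w = u * p * v ∧ ¬ Dv a u ∧ ¬ Dv a v
def Ec (a p b q : Pl A) : Prop := q * p * a = a * (q * p) ∧ q * p * b = b * (q * p)

theorem dv_iff {x : A} {w : Pl A} : Dv (g x) w ↔ 0 < cnt w x := by
  refine ⟨fun ⟨s, t, h⟩ => by simp [h], ?_⟩
  induction w using PresentedMonoid.inductionOn with | h u =>
  intro h
  rw [cnt, con_mk, Multiset.count_pos, Multiset.mem_coe] at h
  obtain ⟨s, t, h⟩ := List.append_of_mem h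
  exact ⟨mk (ofList s), mk (ofList t), congrArg mk (toList.injective (by simp [h]) : u = ofList s * of x * ofList t)⟩

theorem at_iff {b : Pl A} : At b ↔ ∃ x, b = g x := by
  have n : ∀ x : A, g x ≠ 1 := fun x h => by simpa using congrArg (cnt · x) h
  constructor
  · induction b using PresentedMonoid.inductionOn with | h u =>
    induction u using FreeMonoid.inductionOn' with
    | one => exact fun h => (h.1 rfl).elim
    | of_mul x u _ =>
      intro h
      have := (h.2 (g x) (mk u) rfl).resolve_left (n x)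
      exact ⟨x, show g x * mk u = _ by rw [this, mul_one]⟩
  · rintro ⟨x, rfl⟩
    refine ⟨n x, fun s t h => ?_⟩
    induction s using PresentedMonoid.inductionOn with | h s =>
    induction t using PresentedMonoid.inductionOn with | h t =>
    have l := congrArg (fun w => (con w).toAdd.card) h
    simp only [map_mul, toAdd_mul, con_mk, Multiset.card_add, Multiset.coe_card] at l
    have l : s.toList.length + t.toList.length = 1 := l.symm
    rcases (by omega : s.toList.length = 0 ∨ t.toList.length = 0) with e | e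
    · exact .inl (congrArg mk (toList.injective (List.length_eq_zero_iff.1 e) : s = 1))
    · exact .inr (congrArg mk (toList.injective (List.length_eq_zero_iff.1 e) : t = 1))

theorem mk_rep (x : A) (k : ℕ) : mk (ofList (List.replicate k x)) = g x ^ k := by
  induction k with
  | zero => rfl
  | succ k ih => rw [pow_succ', ← ih]; rfl

theorem Cnt.eq {w p : Pl A} {x : A} (h : Cnt w (g x) p) : p = g x ^ cnt w x := by
  obtain ⟨h, u, v, rfl, hu, hv⟩ := h
  rw [dv_iff] at hu hv
  induction p using PresentedMonoid.inductionOn with | h p =>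
  have : p.toList = List.replicate p.toList.length x := List.eq_replicate_iff.2 ⟨rfl, fun y hy =>
    g_inj (h _ (at_iff.2 ⟨y, rfl⟩) (dv_iff.2 (by rwa [cnt, con_mk, Multiset.count_pos])))⟩
  have e : mk p = g x ^ p.toList.length := by rw [← mk_rep, ← this]; rfl
  simp only [mk] at e
  simp [e, show cnt u x = 0 by omega, show cnt v x = 0 by omega]

theorem Cnt.mk {u v : Pl A} {x : A} (k : ℕ) (hu : cnt u x = 0) (hv : cnt v x = 0) : Cnt (u * g x ^ k * v) (g x) (g x ^ k) := by
  refine ⟨fun b hb h => ?_, u, v, rfl, by simp [dv_iff, hu], by simp [dv_iff, hv]⟩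
  obtain ⟨y, rfl⟩ := at_iff.1 hb
  by_contra q
  simp [dv_iff, show y ≠ x from fun e => q (e ▸ rfl)] at h

theorem lt_iff {x y : A} : Lt (g x) (g y) ↔ x < y := by
  refine ⟨fun ⟨h1, h2⟩ => lt_of_le_of_ne (not_lt.1 fun h => ?_) fun e => h1 (e ▸ rfl),
    fun h => ⟨fun e => h.ne (g_inj e), (k1 le_rfl h).symm⟩⟩
  have := congrFun ((inv h (u := of y * of x * of x) (v := of x * of y * of x) h2).2 (by simp)) 0
  simp [act, h.ne'] at this

theorem ec_iff {x y : A} (h : x < y) {k l : ℕ} : Ec (g x) (g x ^ k) (g y) (g y ^ l) ↔ k = l := by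
  constructor
  · rintro ⟨h1, h2⟩
    have u : ∀ k n, (List.replicate k x).foldl (fun n z => if z = x then n - 1 else n + 1) n = n - k := fun k => by
      induction k <;> simp_all [List.replicate_succ, Nat.sub_sub, add_comm]
    have d : ∀ k n, (List.replicate k y).foldl (fun n z => if z = x then n - 1 else n + 1) n = n + k := fun k => by
      induction k <;> simp_all [List.replicate_succ, h.ne'] <;> omega
    rw [← mk_rep, ← mk_rep] at h1 h2
    have a := congrFun ((inv h (u := ofList _ * ofList _ * of x) (v := of x * (ofList _ * ofList _)) h1).2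
      (by simp; grind)) 0
    have b := congrFun ((inv h (u := ofList _ * ofList _ * of y) (v := of y * (ofList _ * ofList _)) h2).2
      (by simp; grind)) 0
    simp [act, u, d, h.ne'] at a b
    omega
  · rintro rfl
    have c1 : Commute (g y * g x) (g x) := by rw [commute_iff_eq, ← mul_assoc]; exact (k1 le_rfl h).symm
    have c2 : Commute (g y * g x) (g y) := by rw [commute_iff_eq, ← mul_assoc]; exact k2 h le_rfl
    have : g y ^ k * g x ^ k = (g y * g x) ^ k := by
      induction k with
      | zero => simp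
      | succ k ih => rw [pow_succ', pow_succ, mul_assoc, ← mul_assoc (g y ^ k), ih, ← mul_assoc, ← (c2.pow_left k).eq, mul_assoc,
          ← pow_succ]
    rw [Ec, this]
    exact ⟨c1.pow_left k, c2.pow_left k⟩

end Pool.Agent.H.MP_54e6ab_lc
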