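import Mathlib
import Pool.Agent.H.MP_54e6ab_lc.A
import Pool.Agent.Lib.helper22.FO
import Pool.Agent.Lib.helper22.Mul

namespace Pool.Agent.H.MP_54e6ab_lc

open Pool.Agent.Lib.FO Pool.Agent.Lib.helper21.Mach

variable {A : Type} [LinearOrder A]

theorem Cnt.left {u p : Pl A} {z : A} (h : Cnt u (g z) p) {v : Pl A} (hv : cnt v z = 0) : Cnt (v * u) (g z) p := by
  obtain ⟨h, s, t, rfl, a, b⟩ := h
  exact ⟨h, v * s, t, by simp only [mul_assoc], by simp_all [dv_iff], b⟩

theorem root_iff {x : A} {k m : ℕ} : (∃ r, g x ^ k = r ^ m) ↔ m ∣ k :=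
  ⟨fun ⟨r, h⟩ => ⟨cnt r x, by simpa using congrArg (cnt · x) h⟩, fun ⟨l, h⟩ => ⟨g x ^ l, by rw [h, pow_mul']⟩⟩

def Hl {Q : Type} (i : Q → ℕ) (q0 : Q) (m : Q → ℕ) (nxt : Q → Bool → Option Q) (α β : Q → Bool → ℕ) (a0 p0 : Pl A) : Prop :=
  At a0 ∧ ∃ w w', Cnt w a0 p0 ∧ Cnt w' a0 (a0 ^ i q0) ∧ ∀ a, At a → Dv a w → ∀ p, Cnt w a p → ∀ q, Cnt w' a (a ^ i q) →
    ∀ t : Bool, (t = true ↔ ¬ ∃ r, p = r ^ m q) → ∀ q', nxt q t = some q' →
      ∃ b, At b ∧ Lt a b ∧ Cnt w' b (b ^ i q') ∧ ∃ p', Cnt w b p' ∧ Ec a (p ^ α q t) b (p' ^ β q t)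

theorem H_def {Q C : Type} [Finite Q] (c : C → Pl A) (i q0 m nxt α β) :
    Def c 2 fun v => Hl (Q := Q) i q0 m nxt α β (v 1) (v 0) := by
  unfold Hl Cnt At Lt Dv Ec
  repeat' first | apply Def.const | apply Def.all | apply Def.ex | apply Def.not | apply Def.and | apply Def.or | apply Def.iff | apply Def.eq | apply Def.imp | (apply Def.fin; intro) | apply DT.var | apply DT.one | apply DT.mul | apply DT.pow

theorem und [Nonempty A] [NoMaxOrder A] {C : Type} [Primcodable C] (c : C → Pl A) : Und c := by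
  obtain ⟨D, Q, _, st, X, f, c0, q0, m, nxt, α, β, hX, h0, -, hβ, hf, hM⟩ := exists_mul
  obtain ⟨i, hi⟩ := exists_injective_nat Q
  refine und_of (H_def c i q0 m nxt α β) (N := (2 ^ ·)) ((Primrec₂.unpaired'.1 Nat.Primrec.pow).comp (.const 2) .id).to_comp ?_
  convert hM using 3 with n
  constructor
  · rintro ⟨a, ha, w, w', h1, h2, h⟩
    obtain ⟨x, rfl⟩ := at_iff.1 ha
    rw [← (h0 n).1] at h1
    rw [← (h0 n).2] at h2
    generalize c0 n = d at h1 h2
    generalize e : ((con w).toAdd.toFinset.filter (x < ·)).card = k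
    induction k using Nat.strong_induction_on generalizing x d with | _ k ih =>
    cases s : f d with
    | none => exact .stop s
    | some d' =>
      obtain ⟨e1, e2⟩ := hf d (decide ¬ m (st d) ∣ X d) (by simp)
      have l : ∀ {y d}, Cnt w (g y) (g y ^ X d) → 0 < cnt w y := fun {y d} h => by
        have := congrArg (cnt · y) h.eq
        have := hX d
        simp_all
      obtain ⟨b, hb, xy, k1, p, k2, k3⟩ := h _ ha (dv_iff.2 (l h1)) _ h1 _ h2 (decide ¬ m (st d) ∣ X d) (by rw [root_iff]; simp) (st d') (by rw [← e1, s]; rfl)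
      obtain ⟨y, rfl⟩ := at_iff.1 hb
      rw [lt_iff] at xy
      rw [k2.eq, ← pow_mul', ← pow_mul', ec_iff xy, e2 _ s, Nat.mul_right_inj (hβ _ _).2.ne'] at k3
      rw [k2.eq, ← k3] at k2
      refine .go s (ih _ ?_ y hb d' k2 k1 rfl)
      refine e ▸ Finset.card_lt_card ⟨fun z => by simp; exact fun a b => ⟨a, xy.trans b⟩, fun z => ?_⟩
      simpa using @z y (by simpa [xy, cnt, Multiset.count_pos] using l k2)
  · intro h
    have : ∀ x : A, ∃ u u' : Pl A, (∀ y ≤ x, cnt u y = 0 ∧ cnt u' y = 0) ∧ ∀ y, 0 < cnt (g x ^ X (c0 n) * u) y →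
        ∃ d, cnt (g x ^ X (c0 n) * u) y = X d ∧ cnt (g x ^ i (st (c0 n)) * u') y = i (st d) ∧ ∀ d', f d = some d' → ∃ z > y,
          Cnt (g x ^ X (c0 n) * u) (g z) (g z ^ X d') ∧ Cnt (g x ^ i (st (c0 n)) * u') (g z) (g z ^ i (st d')) := by
      generalize c0 n = d at h
      induction h with
      | @stop d s =>
        refine fun x => ⟨1, 1, by simp, fun y hy => ⟨d, ?_⟩⟩
        obtain rfl : y = x := by by_contra q; simp [q] at hy
        simp [s]
      | @go d d' s _ ih =>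
        intro x
        obtain ⟨z, xz⟩ := exists_gt x
        obtain ⟨u, u', a, b⟩ := ih z
        refine ⟨g z ^ X d' * u, g z ^ i (st d') * u', fun y hy => by simp [a y (hy.trans xz.le), (hy.trans_lt xz).ne], fun y hy => ?_⟩
        by_cases q : y = x
        · subst q
          refine ⟨d, by simp [a y xz.le, xz.ne], by simp [a y xz.le, xz.ne], fun e he => ⟨z, xz, ?_⟩⟩
          obtain rfl : d' = e := by simpa [s] using he
          simp only [← mul_assoc]
          constructor <;> apply Cnt.mk <;> simp [a z le_rfl, xz.ne']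
        · obtain ⟨e, e1, e2, e3⟩ := b y (by simpa [q] using hy)
          refine ⟨e, by simpa [q] using e1, by simpa [q] using e2, fun e' he => ?_⟩
          obtain ⟨t, ty, k1, k2⟩ := e3 e' he
          have : t ≠ x := by
            rintro rfl
            have := congrArg (cnt · t) k1.eq
            simp [a t xz.le, xz.ne, (hX _).ne'] at this
          exact ⟨t, ty, k1.left (by simp [this]), k2.left (by simp [this])⟩
    obtain ⟨x⟩ := ‹Nonempty A›
    obtain ⟨u, u', a, b⟩ := this x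
    refine ⟨g x, at_iff.2 ⟨x, rfl⟩, g x ^ X (c0 n) * u, g x ^ i (st (c0 n)) * u', ?_, ?_, fun _ ha h1 p h2 q h3 t ht q' hq => ?_⟩
    · simpa [(h0 n).1] using Cnt.mk (u := 1) (2 ^ n) (by simp) (a x le_rfl).1
    · simpa [(h0 n).2] using Cnt.mk (u := 1) (i q0) (by simp) (a x le_rfl).2
    obtain ⟨y, rfl⟩ := at_iff.1 ha
    obtain ⟨d, e1, e2, e3⟩ := b y (dv_iff.1 h1)
    obtain rfl : st d = q := hi (by simpa [e2] using (congrArg (cnt · y) h3.eq).symm)
    rw [h2.eq, e1, root_iff] at ht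
    obtain ⟨k1, k2⟩ := hf d t ht
    obtain ⟨d', s, rfl⟩ := Option.map_eq_some_iff.1 (k1.trans hq)
    obtain ⟨z, yz, k3, k4⟩ := e3 d' s
    exact ⟨g z, at_iff.2 ⟨z, rfl⟩, lt_iff.2 yz, k4, _, k3, by rw [h2.eq, e1, ← pow_mul', ← pow_mul', ec_iff yz, k2 _ s]⟩

end Pool.Agent.H.MP_54e6ab_lc
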